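import Pool.Agent.N437.QR.Stm

/-! Project QR, leaf CORE (helper78): the sequence of graphs. -/

set_option autoImplicit false

namespace Pool.Agent.N78.QR

open Finset Filter Topology Pool.Agent.N437.QR

theorem t_CORE (h1 : S_FAM) (h2 : S_DIAG) : S_CORE := by
  intro V _ _ E d η p hη hp hle hK
  refine h2 (fun n => Finset (Sym2 (Fin n))) (fun j n S =>
    (emb (E j) S : ℝ) / ((n.descFactorial (Fintype.card (V j)) : ℝ) * p n ^ (E j).card) -
        Zf (E j) (η n) ^ d n) (fun n => ⟨∅⟩) ?_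
  intro m δ hδ
  have hev : ∀ᶠ n : ℕ in atTop, ∀ j ∈ Finset.range m,
      (2 * Fintype.card (V j) ≤ n ∧ (m : ℝ) * ((Fintype.card (V j) : ℝ) ^ 2 *
      2 ^ Fintype.card (V j) * ((p n)⁻¹ ^ (2 * (E j).card) / n)) < δ ^ 2) := by
    rw [Filter.eventually_all_finset]
    intro j _
    refine (eventually_ge_atTop (2 * Fintype.card (V j))).and ?_
    have ht : Tendsto (fun n : ℕ => (m : ℝ) * ((Fintype.card (V j) : ℝ) ^ 2 *
        2 ^ Fintype.card (V j) * ((p n)⁻¹ ^ (2 * (E j).card) / n))) atTop (𝓝 0) := by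
      have := ((hK (2 * (E j).card)).const_mul ((Fintype.card (V j) : ℝ) ^ 2 *
        2 ^ Fintype.card (V j))).const_mul (m : ℝ)
      simpa using this
    exact ht.eventually_lt_const (by positivity)
  filter_upwards [hev] with n hn
  exact h1 V E n (d n) m (η n) (p n) δ (hη n) (hp n) (hle n) hδ
    fun j hj => hn j (Finset.mem_range.2 hj)

end Pool.Agent.N78.QR
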